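import Pool.Agent.H65.CRZ.TL
import Pool.Agent.H18.PZ.CA
import Pool.Agent.H18.PZ.RC

/-!
Module CA (critical zeros): Carleman formula for a rectangle inside of an open set.
-/

set_option autoImplicit false

open Complex MeasureTheory Set Filter Topology
open Pool.Agent.H65.CRZ

namespace Pool.Agent.H35.CRZ

open Pool.Agent.H28.MZ (T_RC)
open Pool.Agent.H18.PZ (weighted_residue re_integral norm_cosh_le hd_comp parts zeros_finite
  order_ne_top)

theorem pf_CA : T_CA := by
  classical
  intro f a b T₁ T₂ e U hab hT12 hUopen hUpre hdiff hR hleft hhor hright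
  have hRC : T_RC := Pool.Agent.H18.PZ.rc
  set D := T₂ - T₁ with hD
  have hDpos : 0 < D := by rw [hD]; linarith
  have hpi := Real.pi_pos
  have hdOn : DifferentiableOn ℂ f U := fun s hs => (hdiff s hs).differentiableWithinAt
  have hfU : AnalyticOnNhd ℂ f U := hdOn.analyticOnNhd hUopen
  have hs0 : f (a + T₁ * I) ≠ 0 := hleft T₁ ⟨le_refl _, hT12.le⟩
  have hs0U : (a + T₁ * I : ℂ) ∈ U := by
    apply hR <;> simp <;> linarith
  -- the zeros
  have hcomp : IsCompact (Icc a b ×ℂ Icc T₁ T₂) := isCompact_Icc.reProdIm isCompact_Icc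
  have hfin := zeros_finite hUpre hfU hs0U hs0 hcomp (by
    intro s hs
    rw [mem_reProdIm] at hs
    exact hR s hs.1.1 hs.1.2 hs.2.1 hs.2.2)
  have hfin2 : {z : ℂ | a < z.re ∧ z.re < b ∧ T₁ < z.im ∧ z.im < T₂ ∧ f z = 0}.Finite := by
    refine hfin.subset ?_
    rintro z ⟨h1, h2, h3, h4, h5⟩
    exact ⟨mem_reProdIm.2 ⟨⟨h1.le, h2.le⟩, h3.le, h4.le⟩, h5⟩
  set Z := hfin2.toFinset with hZdef
  have hZ : ∀ z : ℂ, z ∈ Z ↔ a < z.re ∧ z.re < b ∧ T₁ < z.im ∧ z.im < T₂ ∧ f z = 0 := by
    intro z
    rw [hZdef, Set.Finite.mem_toFinset]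
    rfl
  refine ⟨Z, hZ, ?_⟩
  -- the kernel
  set K : ℂ → ℂ := fun s => ((D / Real.pi : ℝ) : ℂ) *
    Complex.cosh ((Real.pi / D : ℝ) * (s - a - T₁ * I)) with hK
  have hKd : Differentiable ℂ K := by
    intro s
    apply DifferentiableAt.const_mul
    apply DifferentiableAt.ccosh
    fun_prop
  have hmain := weighted_residue hRC hKd hab hT12 hfU hR Z hZ (fun z hz => by
      obtain ⟨h1, h2, h3, h4, _⟩ := (hZ z).1 hz
      exact order_ne_top hUpre hfU hs0U hs0 (hR z h1.le h2.le h3.le h4.le))
    hhor (fun t ht => ⟨hleft t ht, (hright t ht).1⟩)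
  -- values of the kernel
  have hKb : ∀ x : ℝ, K (x + T₁ * I) = ((D / Real.pi * Real.cosh (Real.pi / D * (x - a)) : ℝ) : ℂ) := by
    intro x
    rw [hK]
    simp only
    rw [show ((x : ℂ) + T₁ * I - a - T₁ * I) = ((x - a : ℝ) : ℂ) by push_cast; ring]
    push_cast
    rfl
  have hKt : ∀ x : ℝ, K (x + T₂ * I) =
      ((-(D / Real.pi * Real.cosh (Real.pi / D * (x - a))) : ℝ) : ℂ) := by
    intro x
    rw [hK]
    simp only
    have h1 : ((Real.pi / D : ℝ) : ℂ) * ((x : ℂ) + T₂ * I - a - T₁ * I) =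
        ((Real.pi / D * (x - a) : ℝ) : ℂ) + Real.pi * I := by
      have h2 : (D : ℂ) ≠ 0 := by exact_mod_cast hDpos.ne'
      have h3 : ((T₂ : ℂ) - T₁) = D := by rw [hD]; push_cast; ring
      push_cast
      field_simp
      linear_combination (I : ℂ) * h3
    rw [h1, Complex.cosh_add, Complex.cosh_mul_I, Complex.sinh_mul_I, Complex.cos_pi,
      Complex.sin_pi]
    push_cast
    ring
  have hKl : ∀ t : ℝ, K (a + t * I) = ((D / Real.pi * Real.cos (Real.pi / D * (t - T₁)) : ℝ) : ℂ) := by
    intro t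
    rw [hK]
    simp only
    have h1 : ((Real.pi / D : ℝ) : ℂ) * ((a : ℂ) + t * I - a - T₁ * I) =
        ((Real.pi / D * (t - T₁) : ℝ) : ℂ) * I := by
      push_cast
      ring
    rw [h1, Complex.cosh_mul_I]
    push_cast
    rfl
  have hKr : ∀ t : ℝ, ‖K (b + t * I)‖ ≤ D / Real.pi * Real.cosh (Real.pi / D * (b - a)) := by
    intro t
    rw [hK]
    simp only
    rw [norm_mul, Complex.norm_real, Real.norm_eq_abs, abs_of_pos (by positivity)]
    have h1 := norm_cosh_le (((Real.pi / D : ℝ) : ℂ) * ((b : ℂ) + t * I - a - T₁ * I))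
    have h2 : (((Real.pi / D : ℝ) : ℂ) * ((b : ℂ) + t * I - a - T₁ * I)).re =
        Real.pi / D * (b - a) := by
      simp [mul_re]
    rw [h2] at h1
    gcongr
  have hKz : ∀ z : ℂ, (K z).im = D / Real.pi * (Real.sinh (Real.pi / D * (z.re - a)) *
      Real.sin (Real.pi / D * (z.im - T₁))) := by
    intro z
    rw [hK]
    simp only
    rw [Complex.im_ofReal_mul]
    congr 1
    have h1 : ((Real.pi / D : ℝ) : ℂ) * (z - a - T₁ * I) =
        ((Real.pi / D * (z.re - a) : ℝ) : ℂ) + ((Real.pi / D * (z.im - T₁) : ℝ) : ℂ) * I := by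
      apply Complex.ext
      · simp [mul_re]
      · simp [mul_im]
    rw [h1]
    generalize Real.pi / D * (z.re - a) = A
    generalize Real.pi / D * (z.im - T₁) = B
    rw [Complex.cosh_add, Complex.cosh_mul_I, Complex.sinh_mul_I]
    rw [← Complex.ofReal_cosh, ← Complex.ofReal_cos, ← Complex.ofReal_sinh, ← Complex.ofReal_sin]
    simp [add_im, mul_im, Complex.sinh_ofReal_re, Complex.sin_ofReal_re]
  -- derivatives along the sides
  have hder : ∀ s ∈ U, HasDerivAt f (deriv f s) s := fun s hs => (hdiff s hs).hasDerivAt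
  have hcd : ContinuousOn (deriv f) U := hfU.deriv.continuousOn
  have hbU : ∀ x ∈ Icc a b, ((x : ℂ) + T₁ * I) ∈ U := fun x hx => by
    apply hR
    · simpa using hx.1
    · simpa using hx.2
    · simp
    · simpa using hT12.le
  have htU : ∀ x ∈ Icc a b, ((x : ℂ) + T₂ * I) ∈ U := fun x hx => by
    apply hR
    · simpa using hx.1
    · simpa using hx.2
    · simpa using hT12.le
    · simp
  have hlU : ∀ t ∈ Icc T₁ T₂, ((a : ℂ) + t * I) ∈ U := fun x hx => by
    apply hR
    · simp
    · simpa using hab.le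
    · simpa using hx.1
    · simpa using hx.2
  have hrU : ∀ t ∈ Icc T₁ T₂, ((b : ℂ) + t * I) ∈ U := fun x hx => by
    apply hR
    · simpa using hab.le
    · simp
    · simpa using hx.1
    · simpa using hx.2
  have dh : ∀ (c x : ℝ), HasDerivAt (fun x : ℝ => (x : ℂ) + c * I) 1 x := fun c x => by
    have h2 : HasDerivAt (fun t : ℝ => (t : ℂ)) 1 x := Complex.ofRealCLM.hasDerivAt
    exact h2.add_const _
  have dv : ∀ (c t : ℝ), HasDerivAt (fun t : ℝ => (c : ℂ) + t * I) I t := fun c t => by
    have h2 : HasDerivAt (fun t : ℝ => (t : ℂ)) 1 t := Complex.ofRealCLM.hasDerivAt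
    simpa using (h2.mul_const I).const_add (c : ℂ)
  -- bottom
  have uIab : uIcc a b = Icc a b := uIcc_of_le hab.le
  have uIcd : uIcc T₁ T₂ = Icc T₁ T₂ := uIcc_of_le hT12.le
  have dcosh : ∀ x : ℝ, HasDerivAt (fun x => D / Real.pi * Real.cosh (Real.pi / D * (x - a)))
      (Real.sinh (Real.pi / D * (x - a))) x := by
    intro x
    have h1 : HasDerivAt (fun x => Real.pi / D * (x - a)) (Real.pi / D * 1) x :=
      ((hasDerivAt_id x).sub_const a).const_mul _
    have h2 := (h1.cosh).const_mul (D / Real.pi)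
    convert! h2 using 1
    field_simp
  have dcos : ∀ t : ℝ, HasDerivAt (fun t => D / Real.pi * Real.cos (Real.pi / D * (t - T₁)))
      (-Real.sin (Real.pi / D * (t - T₁))) t := by
    intro t
    have h1 : HasDerivAt (fun x => Real.pi / D * (x - T₁)) (Real.pi / D * 1) t :=
      ((hasDerivAt_id t).sub_const T₁).const_mul _
    have h2 := (h1.cos).const_mul (D / Real.pi)
    convert! h2 using 1
    field_simp
  have pb := parts (w := fun x : ℝ => f (x + T₁ * I)) (w' := fun x : ℝ => deriv f (x + T₁ * I))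
    (u := fun x => D / Real.pi * Real.cosh (Real.pi / D * (x - a)))
    (u' := fun x => Real.sinh (Real.pi / D * (x - a))) (a := a) (b := b)
    (fun x hx => by
      rw [uIab] at hx
      have := hd_comp (γ := fun x : ℝ => (x : ℂ) + T₁ * I) (hder _ (hbU x hx)) (dh T₁ x)
      rwa [one_mul] at this)
    (fun x hx => by rw [uIab] at hx; exact (hhor x hx).1)
    (by
      rw [uIab]
      exact hcd.comp (by fun_prop) hbU) dcosh (by fun_prop)
  have pt := parts (w := fun x : ℝ => f (x + T₂ * I)) (w' := fun x : ℝ => deriv f (x + T₂ * I))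
    (u := fun x => D / Real.pi * Real.cosh (Real.pi / D * (x - a)))
    (u' := fun x => Real.sinh (Real.pi / D * (x - a))) (a := a) (b := b)
    (fun x hx => by
      rw [uIab] at hx
      have := hd_comp (γ := fun x : ℝ => (x : ℂ) + T₂ * I) (hder _ (htU x hx)) (dh T₂ x)
      rwa [one_mul] at this)
    (fun x hx => by rw [uIab] at hx; exact (hhor x hx).2)
    (by
      rw [uIab]
      exact hcd.comp (by fun_prop) htU) dcosh (by fun_prop)
  have pl := parts (w := fun t : ℝ => f (a + t * I)) (w' := fun t : ℝ => I * deriv f (a + t * I))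
    (u := fun t => D / Real.pi * Real.cos (Real.pi / D * (t - T₁)))
    (u' := fun t => -Real.sin (Real.pi / D * (t - T₁))) (a := T₁) (b := T₂)
    (fun x hx => by
      rw [uIcd] at hx
      exact hd_comp (γ := fun t : ℝ => (a : ℂ) + t * I) (hder _ (hlU x hx)) (dv a x))
    (fun x hx => by rw [uIcd] at hx; exact hleft x hx)
    (by
      rw [uIcd]
      exact continuousOn_const.mul (hcd.comp (by fun_prop) hlU)) dcos (by fun_prop)
  -- continuity of the integrands
  have hfc : ContinuousOn f U := hdOn.continuousOn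
  have cb : ContinuousOn (fun x : ℝ => K (x + T₁ * I) * (deriv f (x + T₁ * I) / f (x + T₁ * I)))
      (uIcc a b) := by
    rw [uIab]
    apply ContinuousOn.mul (hKd.continuous.comp_continuousOn (by fun_prop))
    exact (hcd.comp (by fun_prop) hbU).div (hfc.comp (by fun_prop) hbU) fun x hx => (hhor x hx).1
  have ct : ContinuousOn (fun x : ℝ => K (x + T₂ * I) * (deriv f (x + T₂ * I) / f (x + T₂ * I)))
      (uIcc a b) := by
    rw [uIab]
    apply ContinuousOn.mul (hKd.continuous.comp_continuousOn (by fun_prop))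
    exact (hcd.comp (by fun_prop) htU).div (hfc.comp (by fun_prop) htU) fun x hx => (hhor x hx).2
  have cl : ContinuousOn (fun t : ℝ => I * (K (a + t * I) *
      (deriv f (a + t * I) / f (a + t * I)))) (uIcc T₁ T₂) := by
    rw [uIcd]
    apply ContinuousOn.mul continuousOn_const
    apply ContinuousOn.mul (hKd.continuous.comp_continuousOn (by fun_prop))
    exact (hcd.comp (by fun_prop) hlU).div (hfc.comp (by fun_prop) hlU) fun x hx => hleft x hx
  have rb : (∫ x in a..b, K (x + T₁ * I) * (deriv f (x + T₁ * I) / f (x + T₁ * I))).re =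
      ∫ x in a..b, D / Real.pi * Real.cosh (Real.pi / D * (x - a)) *
        (deriv f (x + T₁ * I) / f (x + T₁ * I)).re := by
    rw [re_integral cb]
    apply intervalIntegral.integral_congr
    intro x _
    show (K (x + T₁ * I) * _).re = _
    rw [hKb, Complex.re_ofReal_mul]
  have rt : (∫ x in a..b, K (x + T₂ * I) * (deriv f (x + T₂ * I) / f (x + T₂ * I))).re =
      -∫ x in a..b, D / Real.pi * Real.cosh (Real.pi / D * (x - a)) *
        (deriv f (x + T₂ * I) / f (x + T₂ * I)).re := by
    rw [re_integral ct, ← intervalIntegral.integral_neg]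
    apply intervalIntegral.integral_congr
    intro x _
    show (K (x + T₂ * I) * _).re = _
    rw [hKt, Complex.re_ofReal_mul]
    ring
  have rl : (I * ∫ t in T₁..T₂, K (a + t * I) * (deriv f (a + t * I) / f (a + t * I))).re =
      ∫ t in T₁..T₂, D / Real.pi * Real.cos (Real.pi / D * (t - T₁)) *
        (I * deriv f (a + t * I) / f (a + t * I)).re := by
    rw [← intervalIntegral.integral_const_mul, re_integral cl]
    apply intervalIntegral.integral_congr
    intro t _
    show (I * (K (a + t * I) * (deriv f (a + t * I) / f (a + t * I)))).re =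
      D / Real.pi * Real.cos (Real.pi / D * (t - T₁)) * (I * deriv f (a + t * I) / f (a + t * I)).re
    rw [hKl, ← Complex.re_ofReal_mul]
    congr 1
    ring
  -- the right side
  set B := D / Real.pi * Real.cosh (Real.pi / D * (b - a)) with hB
  have hB0 : 0 ≤ B := by
    have := Real.cosh_pos (Real.pi / D * (b - a))
    positivity
  have he0 : 0 ≤ e := (abs_nonneg _).trans (hright T₁ ⟨le_refl _, hT12.le⟩).2.1
  have rr : ‖I * ∫ t in T₁..T₂, K (b + t * I) * (deriv f (b + t * I) / f (b + t * I))‖ ≤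
      B * e * D := by
    rw [norm_mul, Complex.norm_I, one_mul]
    have h1 := intervalIntegral.norm_integral_le_of_norm_le_const (a := T₁) (b := T₂)
      (C := B * e) (f := fun t : ℝ => K (b + t * I) * (deriv f (b + t * I) / f (b + t * I))) (by
      intro t ht
      rw [uIoc_of_le hT12.le] at ht
      have ht' : t ∈ Icc T₁ T₂ := ⟨ht.1.le, ht.2⟩
      obtain ⟨h2, _, h3⟩ := hright t ht'
      rw [norm_mul, norm_div]
      have h4 : ‖deriv f (b + t * I)‖ / ‖f (b + t * I)‖ ≤ e := by
        rw [div_le_iff₀ (norm_pos_iff.2 h2)]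
        exact h3
      have h5 := hKr t
      gcongr)
    rwa [abs_of_pos (by linarith : (0 : ℝ) < T₂ - T₁), ← hD] at h1
  have rr2 := (Complex.abs_re_le_norm _).trans rr
  -- real part of the identity
  have hre := congrArg Complex.re hmain
  rw [Complex.sub_re, Complex.sub_re, Complex.add_re, rb, rt, rl] at hre
  rw [pb, pt, pl] at hre
  have hrhs : (2 * Real.pi * I * ∑ z ∈ Z, (analyticOrderNatAt f z : ℂ) * K z).re =
      -(2 * Real.pi * ∑ z ∈ Z, (analyticOrderNatAt f z : ℝ) *
        (D / Real.pi * Real.sinh (Real.pi * (z.re - a) / D)) *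
          Real.sin (Real.pi * (z.im - T₁) / D)) := by
    have h1 : (2 * Real.pi * I * ∑ z ∈ Z, (analyticOrderNatAt f z : ℂ) * K z : ℂ) =
        ((2 * Real.pi : ℝ) : ℂ) * (I * ∑ z ∈ Z, (analyticOrderNatAt f z : ℂ) * K z) := by
      push_cast
      ring
    rw [h1, Complex.re_ofReal_mul, Complex.I_mul_re, ← mul_neg, Complex.im_sum]
    congr 2
    refine Finset.sum_congr rfl fun z _ => ?_
    have h2 : ((analyticOrderNatAt f z : ℂ) * K z).im = (analyticOrderNatAt f z : ℝ) * (K z).im := by
      rw [← Complex.ofReal_natCast, Complex.im_ofReal_mul]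
    rw [h2, hKz]
    have h3 : Real.pi / D * (z.re - a) = Real.pi * (z.re - a) / D := by ring
    have h4 : Real.pi / D * (z.im - T₁) = Real.pi * (z.im - T₁) / D := by ring
    rw [h3, h4]
    ring
  rw [hrhs] at hre
  -- integrals
  have i1 : (∫ t in T₁..T₂, Real.log ‖f (a + t * I)‖ * Real.sin (Real.pi * (t - T₁) / D)) =
      -∫ t in T₁..T₂, -Real.sin (Real.pi / D * (t - T₁)) * Real.log ‖f (a + t * I)‖ := by
    rw [← intervalIntegral.integral_neg]
    apply intervalIntegral.integral_congr
    intro t _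
    have h4 : Real.pi / D * (t - T₁) = Real.pi * (t - T₁) / D := by ring
    simp only
    rw [h4]
    ring
  have lb : ContinuousOn (fun x : ℝ => Real.log ‖f (x + T₁ * I)‖) (uIcc a b) := by
    rw [uIab]
    apply ContinuousOn.log
    · exact (hfc.comp (by fun_prop) hbU).norm
    · intro x hx
      exact norm_ne_zero_iff.2 (hhor x hx).1
  have lt : ContinuousOn (fun x : ℝ => Real.log ‖f (x + T₂ * I)‖) (uIcc a b) := by
    rw [uIab]
    apply ContinuousOn.log
    · exact (hfc.comp (by fun_prop) htU).norm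
    · intro x hx
      exact norm_ne_zero_iff.2 (hhor x hx).2
  have sc : ContinuousOn (fun x : ℝ => Real.sinh (Real.pi / D * (x - a))) (uIcc a b) := by
    fun_prop
  have i2 : (∫ x in a..b, (Real.log ‖f (x + T₁ * I)‖ + Real.log ‖f (x + T₂ * I)‖) *
      Real.sinh (Real.pi * (x - a) / D)) =
      (∫ x in a..b, Real.sinh (Real.pi / D * (x - a)) * Real.log ‖f (x + T₁ * I)‖) +
      ∫ x in a..b, Real.sinh (Real.pi / D * (x - a)) * Real.log ‖f (x + T₂ * I)‖ := by
    have s1 : IntervalIntegrable (fun x : ℝ => Real.sinh (Real.pi / D * (x - a)) *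
        Real.log ‖f (x + T₁ * I)‖) volume a b := (sc.mul lb).intervalIntegrable
    have s2 : IntervalIntegrable (fun x : ℝ => Real.sinh (Real.pi / D * (x - a)) *
        Real.log ‖f (x + T₂ * I)‖) volume a b := (sc.mul lt).intervalIntegrable
    rw [← intervalIntegral.integral_add s1 s2]
    apply intervalIntegral.integral_congr
    intro t _
    have h4 : Real.pi / D * (t - a) = Real.pi * (t - a) / D := by ring
    simp only
    rw [h4]
    ring
  rw [i1, i2]
  -- corners
  have k1 : Real.pi / D * (a - a) = 0 := by rw [sub_self, mul_zero]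
  have k2 : Real.pi / D * (T₁ - T₁) = 0 := by rw [sub_self, mul_zero]
  have k3 : Real.pi / D * (T₂ - T₁) = Real.pi := by
    rw [← hD]
    field_simp
  rw [k1, k2, k3, Real.cosh_zero, Real.cos_zero, Real.cos_pi] at hre
  have l1 := (hright T₁ ⟨le_refl _, hT12.le⟩).2.1
  have l2 := (hright T₂ ⟨hT12.le, le_refl _⟩).2.1
  have m1 : |B * Real.log ‖f (b + T₁ * I)‖| ≤ B * e := by
    rw [abs_mul, abs_of_nonneg hB0]
    gcongr
  have m2 : |B * Real.log ‖f (b + T₂ * I)‖| ≤ B * e := by
    rw [abs_mul, abs_of_nonneg hB0]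
    gcongr
  have hBle : B * e * (D + 2) ≤ (D + 2) * D * Real.cosh (Real.pi * (b - a) / D) * e := by
    have h1 : B = D / Real.pi * Real.cosh (Real.pi * (b - a) / D) := by
      rw [hB]
      congr 2
      ring
    rw [h1]
    have h2 : D / Real.pi ≤ D := div_le_self hDpos.le (by linarith [Real.pi_gt_three])
    have h3 := (Real.cosh_pos (Real.pi * (b - a) / D)).le
    calc D / Real.pi * Real.cosh (Real.pi * (b - a) / D) * e * (D + 2)
        ≤ D * Real.cosh (Real.pi * (b - a) / D) * e * (D + 2) := by gcongr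
      _ = _ := by ring
  rw [abs_le] at m1 m2 rr2 ⊢
  constructor <;> linarith

end Pool.Agent.H35.CRZ
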